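import Mathlib
import Pool.Agent.TH813.Ell0K

/-!
# The logarithmic differential is linear over the complex multiplications
-/

set_option autoImplicit false

open Filter Finset
open scoped Topology PeriodPair ComplexConjugate

noncomputable section

namespace Pool.Agent.TH813.Ell

open H667R3 Pool.Agent.W245.EB

variable {L : PeriodPair}

theorem om_natCast_mul (D : Derivation ℚ ℂ ℂ) (h2 : D L.g₂ = 0) (h3 : D L.g₃ = 0) (n : ℕ) (u : ℂ) :
    om L D ((n : ℂ) * u) = n * om L D u := by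
  induction n with
  | zero =>
      rw [Nat.cast_zero, zero_mul, zero_mul]
      exact om_of_mem L D (zero_mem _)
  | succ n ih =>
      have e : ((n + 1 : ℕ) : ℂ) * u = (n : ℂ) * u + u := by push_cast; ring
      rw [e, om_add L D h2 h3, ih]
      push_cast
      ring

/-- the differential vanishes at the torsion points -/
theorem om_tors (D : Derivation ℚ ℂ ℂ) (h2 : D L.g₂ = 0) (h3 : D L.g₃ = 0) {n : ℕ} (hn : 0 < n)
    {u : ℂ} (hu : (n : ℂ) * u ∈ L.lattice) : om L D u = 0 := by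
  have h := om_natCast_mul D h2 h3 n u
  rw [om_of_mem L D hu] at h
  have hn0 : (n : ℂ) ≠ 0 := by exact_mod_cast hn.ne'
  exact (mul_eq_zero.1 h.symm).resolve_left hn0

/-- the derivative of the multiplication formula -/
theorem wp'_mul_formula {α : ℂ} (hα : α ≠ 0) (hm : ∀ w ∈ L.lattice, α * w ∈ L.lattice) {c : ℂ}
    (hc : ∀ z, α * z ∉ L.lattice →
      α ^ 2 * ℘[L] (α * z) = ∑ x ∈ ker hα hm, ℘[L] (z - x.out) + c) {z : ℂ}
    (hz : α * z ∉ L.lattice) :
    α ^ 3 * ℘'[L] (α * z) = ∑ x ∈ ker hα hm, ℘'[L] (z - x.out) := by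
  have d1 : HasDerivAt (fun z => α ^ 2 * ℘[L] (α * z)) (α ^ 2 * (℘'[L] (α * z) * α)) z := by
    have h0 : HasDerivAt (fun x : ℂ => α * x) α z := by
      simpa using (hasDerivAt_id z).const_mul α
    exact ((hasDerivAt_weierstrassP L hz).comp z h0).const_mul (α ^ 2)
  have d2 : HasDerivAt (fun z => ∑ x ∈ ker hα hm, ℘[L] (z - x.out) + c)
      (∑ x ∈ ker hα hm, ℘'[L] (z - x.out)) z := by
    refine HasDerivAt.add_const c ?_
    apply HasDerivAt.fun_sum
    intro x hx
    exact (hasDerivAt_weierstrassP L (sub_out_notMem hz hx)).comp_sub_const z _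
  have hev : (fun z => α ^ 2 * ℘[L] (α * z)) =ᶠ[𝓝 z]
      (fun z => ∑ x ∈ ker hα hm, ℘[L] (z - x.out) + c) := by
    have ho : IsOpen ((scL L α hα).lattice : Set ℂ)ᶜ := isOpen_compl (scL L α hα)
    have hzm : z ∈ ((scL L α hα).lattice : Set ℂ)ᶜ := fun h => hz (mem_scL.1 h)
    filter_upwards [ho.mem_nhds hzm] with w hw
    exact hc w fun h => hw (mem_scL.2 h)
  have h := d1.unique (d2.congr_of_eventuallyEq hev)
  rw [← h]
  ring

/-- the derivation `D` and the multiplication by `α`: the constant in the multiplication formula is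
killed, and `om` is linear over the multiplications -/
theorem om_mult_const (D : Derivation ℚ ℂ ℂ) (h2 : D L.g₂ = 0) (h3 : D L.g₃ = 0) {α : ℂ}
    (hα : α ≠ 0) (hm : ∀ w ∈ L.lattice, α * w ∈ L.lattice) {c : ℂ}
    (hc : ∀ z, α * z ∉ L.lattice →
      α ^ 2 * ℘[L] (α * z) = ∑ x ∈ ker hα hm, ℘[L] (z - x.out) + c) :
    D c = 0 ∧ ∀ z, om L D (α * z) = α * om L D z := by
  have hDα : D α = 0 := der_kL D (mult_mem_kL hm)
  obtain ⟨m, hm0, htors⟩ := exists_tors hα hm
  have hker : ∀ (z : ℂ), ∀ x ∈ ker hα hm, om L D (z - x.out) = om L D z := by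
    intro z x hx
    have h1 : om L D x.out = 0 := om_tors D h2 h3 hm0 (htors _ (mem_ker.1 hx))
    rw [sub_eq_add_neg, om_add L D h2 h3, om_neg, h1, neg_zero, add_zero]
  have key : ∀ z, α * z ∉ L.lattice →
      α ^ 2 * ℘'[L] (α * z) * (om L D (α * z) - α * om L D z) = D c := by
    intro z hz
    have h1 := congrArg D (hc z hz)
    rw [map_add, map_sum, D_mul, D_pow, hDα, mul_zero, mul_zero, add_zero,
      (D_wp L D h2 h3 hz).1] at h1
    have h4 : ∑ x ∈ ker hα hm, D (℘[L] (z - x.out)) =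
        om L D z * ∑ x ∈ ker hα hm, ℘'[L] (z - x.out) := by
      rw [Finset.mul_sum]
      refine Finset.sum_congr rfl fun x hx => ?_
      rw [(D_wp L D h2 h3 (sub_out_notMem hz hx)).1, hker z x hx]
    rw [h4, ← wp'_mul_formula hα hm hc hz] at h1
    linear_combination h1
  have hDc : D c = 0 := by
    have hz : α * (α⁻¹ * (L.ω₁ / 2)) = L.ω₁ / 2 := by
      rw [← mul_assoc, mul_inv_cancel₀ hα, one_mul]
    have h1 := key (α⁻¹ * (L.ω₁ / 2)) (by rw [hz]; exact L.ω₁_div_two_notMem_lattice)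
    rw [hz, wp'_half_eq_zero L L.ω₁_mem_lattice, mul_zero, zero_mul] at h1
    exact h1.symm
  refine ⟨hDc, fun z => ?_⟩
  by_cases h : 2 * (α * z) ∈ L.lattice
  · rw [om_of_two_mul_mem L D h]
    have h1 : α * (2 * z) ∈ L.lattice := by
      rwa [show α * (2 * z) = 2 * (α * z) by ring]
    have h4 := htors _ h1
    have h5 : ((m * 2 : ℕ) : ℂ) * z ∈ L.lattice := by
      push_cast
      rwa [mul_assoc]
    rw [om_tors D h2 h3 (by omega) h5, mul_zero]
  · have hz : α * z ∉ L.lattice := two_mul_notMem_of L h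
    have h1 := key z hz
    rw [hDc] at h1
    have h4 : α ^ 2 * ℘'[L] (α * z) ≠ 0 := mul_ne_zero (pow_ne_zero _ hα) (wp'_ne_zero L h)
    have h5 := (mul_eq_zero.1 h1).resolve_left h4
    linear_combination h5

end Pool.Agent.TH813.Ell
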